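import Pool.Agent.Q44.JQ.StmC

/-!
# JQ-BEX: existence of the special classes
-/

set_option autoImplicit false

namespace Q154.JQ

open Finset Module
open Q44.JQ
open Pool.Agent.TH344.JG (LocJ SelJ PR df)
open Pool.Agent.Y723.PT (tw dc LG)
open Q44.BN (jv)
open Q44.TI (ch)
open scoped Classical

theorem locJ_of_sq {K : Type} [Field K] {n : ℕ} (a d : Fin n → ℤ)
    (h : ∀ i, IsSquare ((d i : ℤ) : K)) : LocJ K a d := by
  refine ⟨1, 0, Polynomial.monic_one, one_dvd _, fun i => ⟨?_, ?_⟩⟩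
  · rw [Polynomial.eval_one]
    exact one_ne_zero
  · rw [Polynomial.eval_one, Polynomial.natDegree_one, pow_zero, one_mul, one_mul]
    exact h i

theorem lbl_one (T : Finset ℕ) : lbl T 1 = 0 := by
  funext o
  show jv (tv o) 1 = 0
  exact Q44.BN.jv_one _

theorem third {n : ℕ} (hn : 3 ≤ n) (a b : Fin n) : ∃ l : Fin n, l ≠ a ∧ l ≠ b := by
  by_contra h
  push Not at h
  have h1 : (univ : Finset (Fin n)) ⊆ {a, b} := by
    intro l _
    rw [mem_insert, mem_singleton]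
    by_cases hl : l = a
    · exact Or.inl hl
    · exact Or.inr (h l hl)
  have h2 := card_le_card h1
  rw [card_univ, Fintype.card_fin] at h2
  have h3 : ({a, b} : Finset (Fin n)).card ≤ 2 := card_le_two
  omega

theorem rc_add {T : Finset ℕ} (p : T) (φ φ' : Option T → ZMod 2) :
    rc p (φ + φ') = rc p φ + rc p φ' := by
  unfold rc
  simp only [Pi.add_apply]
  ring

/-- the label of an integer which is one modulo four, at the prime `p` -/
theorem rc_lbl {T : Finset ℕ} (p : T) (hp : (p : ℕ).Prime) (hp2 : (p : ℕ) ≠ 2) {m : ℕ}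
    (hm4 : m % 4 = 1) (hmp : ((m : ℕ) : ZMod p) ≠ 0) :
    rc p (lbl T m) = if IsSquare ((m : ℕ) : ZMod p) then 0 else 1 := by
  haveI : Fact (p : ℕ).Prime := ⟨hp⟩
  have hodd : Odd (p : ℕ) := hp.odd_of_ne_two hp2
  have h1 : lbl T m none = 0 := by
    show jv (-1) m = 0
    unfold jv
    have h2 : Odd m := by
      rw [Nat.odd_iff]
      omega
    rw [jacobiSym.at_neg_one h2, ZMod.χ₄_nat_one_mod_four hm4, if_pos rfl]
  have h2 : lbl T m (some p) = if IsSquare ((m : ℕ) : ZMod p) then 0 else 1 := by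
    show jv ((p : ℕ) : ℤ) m = _
    unfold jv
    have h3 : jacobiSym ((m : ℕ) : ℤ) (p : ℕ) = jacobiSym ((p : ℕ) : ℤ) m :=
      jacobiSym.quadratic_reciprocity_one_mod_four hm4 hodd
    rw [← h3, ← jacobiSym.legendreSym.to_jacobiSym]
    have h4 : (((m : ℕ) : ℤ) : ZMod p) ≠ 0 := by
      push_cast
      exact hmp
    by_cases h5 : IsSquare ((m : ℕ) : ZMod p)
    · rw [if_pos h5, if_pos]
      rw [legendreSym.eq_one_iff _ h4]
      push_cast
      exact h5
    · rw [if_neg h5, if_neg]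
      intro h6
      rw [legendreSym.eq_one_iff _ h4] at h6
      push_cast at h6
      exact h5 h6
  unfold rc
  rw [h1, h2, mul_zero, add_zero]
  by_cases h5 : IsSquare ((m : ℕ) : ZMod p)
  · rw [if_pos h5, if_pos h5]
  · rw [if_neg h5, if_neg h5]

theorem exists_unit (p : ℕ) (hp : p.Prime) (hp2 : p ≠ 2) (σ : ZMod 2) :
    ∃ r : ℕ, ((r : ℕ) : ZMod p) ≠ 0 ∧ (if IsSquare ((r : ℕ) : ZMod p) then (0 : ZMod 2) else 1) = σ := by
  haveI : Fact p.Prime := ⟨hp⟩
  have h2 : ∀ a : ZMod 2, a = 0 ∨ a = 1 := by decide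
  rcases h2 σ with h | h
  · refine ⟨1, ?_, ?_⟩
    · rw [Nat.cast_one]
      exact one_ne_zero
    · rw [Nat.cast_one, if_pos (IsSquare.one), h]
  · obtain ⟨a, ha⟩ := FiniteField.exists_nonsquare (F := ZMod p) (by
      rw [ZMod.ringChar_zmod_n]
      exact hp2)
    refine ⟨a.val, ?_, ?_⟩
    · rw [ZMod.natCast_zmod_val]
      rintro rfl
      exact ha (IsSquare.zero)
    · rw [ZMod.natCast_zmod_val, if_neg ha, h]

theorem crt {M p : ℕ} (h : M.Coprime p) (a b : ℕ) : ∃ m : ℕ, m % M = a % M ∧ m % p = b % p := by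
  obtain ⟨m, h1, h2⟩ := Nat.chineseRemainder h a b
  exact ⟨m, h1, h2⟩

theorem t_BEX (hLBL : S_LBL) : S_BEX := by
  intro T hT h2T c p k hp2 σ
  have hp : (p : ℕ).Prime := hT p p.2
  obtain ⟨T', hT'⟩ : ∃ T' : Finset ℕ, T' = T.erase (p : ℕ) := ⟨_, rfl⟩
  have hT'p : ∀ q ∈ T', q.Prime := fun q hq => by
    rw [hT'] at hq
    exact hT q (mem_erase.1 hq).2
  have h2T' : 2 ∈ T' := by
    rw [hT']
    exact mem_erase.2 ⟨fun h => hp2 h.symm, h2T⟩
  obtain ⟨hA1, -, -, hA4, -, -, -, -⟩ := hLBL T hT h2T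
  obtain ⟨-, -, hB3, -, hB5, -, -, -⟩ := hLBL T' hT'p h2T'
  obtain ⟨M, hM⟩ : ∃ M : ℕ, M = 8 * ∏ q ∈ T', q := ⟨_, rfl⟩
  have hcop : M.Coprime (p : ℕ) := by
    rw [hM]
    refine Nat.Coprime.mul_left ?_ ?_
    · have : (8 : ℕ) = 2 ^ 3 := by norm_num
      rw [this]
      refine Nat.Coprime.pow_left _ ?_
      rw [Nat.coprime_primes Nat.prime_two hp]
      exact fun h => hp2 h.symm
    · refine Nat.Coprime.prod_left fun q hq => ?_
      rw [Nat.coprime_primes (hT'p q hq) hp]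
      rw [hT'] at hq
      exact (mem_erase.1 hq).1
  have hqM : ∀ q ∈ T', q ∣ M := fun q hq => by
    rw [hM]
    exact (dvd_prod_of_mem _ hq).mul_left _
  obtain ⟨r, hr0, hrσ⟩ := exists_unit (p : ℕ) hp hp2 σ
  obtain ⟨m, hm1, hm2⟩ := crt hcop (p : ℕ) 1
  obtain ⟨m', hm'1, hm'2⟩ := crt hcop 1 r
  have hpne : ∀ q ∈ T', ¬ q ∣ (p : ℕ) := by
    intro q hq h
    have h1 := (Nat.prime_dvd_prime_iff_eq (hT'p q hq) hp).1 h
    rw [hT'] at hq
    exact (mem_erase.1 hq).1 h1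
  have hpdvd : ∀ (q a b : ℕ), q ∣ M → a % M = b % M → q ∣ a → q ∣ b := by
    intro q a b hq hab h
    have h1 : a ≡ b [MOD q] := Nat.ModEq.of_dvd hq hab
    exact (h1.dvd_iff dvd_rfl).1 h
  -- coprimality
  have hmT' : Cop T' m := fun q hq h => hpne q hq (hpdvd q m p (hqM q hq) hm1 h)
  have hm'T' : Cop T' m' := fun q hq h =>
    (hT'p q hq).one_lt.ne' (Nat.dvd_one.1 (hpdvd q m' 1 (hqM q hq) hm'1 h))
  have hmp : ¬ (p : ℕ) ∣ m := by
    intro h
    have h1 : m ≡ 1 [MOD (p : ℕ)] := hm2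
    have h3 := (h1.dvd_iff (dvd_refl (p : ℕ))).1 h
    exact hp.one_lt.ne' (Nat.dvd_one.1 h3)
  have hm'r : ((m' : ℕ) : ZMod p) = ((r : ℕ) : ZMod p) := (ZMod.natCast_eq_natCast_iff' _ _ _).2 hm'2
  have hm'p : ¬ (p : ℕ) ∣ m' := by
    intro h
    have h1 : ((m' : ℕ) : ZMod p) = 0 := (ZMod.natCast_eq_zero_iff _ _).2 h
    rw [hm'r] at h1
    exact hr0 h1
  have copT : ∀ x : ℕ, Cop T' x → ¬ (p : ℕ) ∣ x → Cop T x := by
    intro x hx hpx q hq h
    by_cases hqp : q = p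
    · rw [hqp] at h
      exact hpx h
    · exact hx q (by rw [hT']; exact mem_erase.2 ⟨hqp, hq⟩) h
  have hmT : Cop T m := copT m hmT' hmp
  have hm'T : Cop T m' := copT m' hm'T' hm'p
  have copmul : ∀ x y : ℕ, Cop T x → Cop T y → Cop T (x * y) := by
    intro x y hx hy q hq h
    rcases ((hT q hq).dvd_mul).1 h with h | h
    · exact hx q hq h
    · exact hy q hq h
  have copmul' : ∀ x y : ℕ, Cop T' x → Cop T' y → Cop T' (x * y) := by
    intro x y hx hy q hq h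
    rcases ((hT'p q hq).dvd_mul).1 h with h | h
    · exact hx q hq h
    · exact hy q hq h
  have cop1 : Cop T 1 := fun q hq h => (hT q hq).one_lt.ne' (Nat.dvd_one.1 h)
  have cop1' : Cop T' 1 := fun q hq h => (hT'p q hq).one_lt.ne' (Nat.dvd_one.1 h)
  -- local squares
  have hsq' : ∀ (q : ℕ) [Fact q.Prime], q ∈ T' → IsSquare ((m' : ℕ) : ℚ_[q]) := by
    intro q _ hq
    have h1 := hB3 m' 1 hm'T' cop1' (hB5 m' 1 hm'T' (by rw [← hM]; exact hm'1)) q hq
    rwa [Nat.cast_one, mul_one] at h1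
  have hsq : ∀ (q : ℕ) [Fact q.Prime], q ∈ T' → IsSquare (((p : ℕ) : ℚ_[q]) * ((m : ℕ) : ℚ_[q])) := by
    intro q _ hq
    have h1 : ((p : ℕ) * m) % (8 * ∏ q ∈ T', q) = ((p : ℕ) * p) % (8 * ∏ q ∈ T', q) := by
      rw [← hM]
      exact Nat.ModEq.mul_left _ hm1
    have hc : Cop T' ((p : ℕ) * m) := copmul' _ _ hpne hmT'
    have h2 := hB3 ((p : ℕ) * m) ((p : ℕ) * p) hc (copmul' _ _ hpne hpne) (hB5 _ _ hc h1) q hq
    obtain ⟨w, hw⟩ := h2
    have hp0 : ((p : ℕ) : ℚ_[q]) ≠ 0 := by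
      exact_mod_cast hp.ne_zero
    refine ⟨w / ((p : ℕ) : ℚ_[q]), ?_⟩
    push_cast at hw
    field_simp
    linear_combination hw
  -- the third index
  obtain ⟨l, hl1, hl2⟩ := third (n := 2 * c.g + 1) (by have := c.hg; omega) k.1.1 k.1.2
  have hk12 : k.1.1 ≠ k.1.2 := k.2.ne
  obtain ⟨z, hz⟩ : ∃ z : Fin (2 * c.g + 1) → ℕ, ∀ i, z i = if i = k.1.1 then m else
      if i = k.1.2 then m * m' else if i = l then m' else 1 := ⟨_, fun i => rfl⟩
  have hz1 : z k.1.1 = m := by rw [hz, if_pos rfl]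
  have hz2 : z k.1.2 = m * m' := by rw [hz, if_neg hk12.symm, if_pos rfl]
  have hz3 : z l = m' := by rw [hz, if_neg hl1, if_neg hl2, if_pos rfl]
  have hz4 : ∀ i, i ≠ k.1.1 → i ≠ k.1.2 → i ≠ l → z i = 1 := fun i h1 h2 h3 => by
    rw [hz, if_neg h1, if_neg h2, if_neg h3]
  have hzc : ∀ i, Cop T (z i) := by
    intro i
    rw [hz]
    split_ifs
    · exact hmT
    · exact copmul _ _ hmT hm'T
    · exact hm'T
    · exact cop1
  have hlab : lbl T (m * m') = lbl T m + lbl T m' := hA1 m m' hmT hm'T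
  have hψ : ∀ o, (fun i => lbl T (z i) o) ∈ VV (2 * c.g + 1) := by
    intro o
    rw [mem_VV]
    have h1 : ∑ i, lbl T (z i) o = ∑ i ∈ ({k.1.1, k.1.2, l} : Finset _), lbl T (z i) o := by
      symm
      refine sum_subset (subset_univ _) fun i _ hi => ?_
      simp only [mem_insert, mem_singleton, not_or] at hi
      rw [hz4 i hi.1 hi.2.1 hi.2.2, lbl_one]
      rfl
    rw [h1, sum_insert, sum_insert, sum_singleton, hz1, hz2, hz3, hlab, Pi.add_apply]
    · have h3 : ∀ x y : ZMod 2, x + (x + y + y) = 0 := by decide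
      exact h3 _ _
    · rw [mem_singleton]
      exact hl2.symm
    · rw [mem_insert, mem_singleton, not_or]
      exact ⟨hk12, hl1.symm⟩
  have hδ : (fun i => if i = k.1.1 ∨ i = k.1.2 then (1 : ZMod 2) else 0) ∈ VV (2 * c.g + 1) := by
    rw [mem_VV]
    have h1 : ∑ i, (if i = k.1.1 ∨ i = k.1.2 then (1 : ZMod 2) else 0) =
        ∑ i ∈ ({k.1.1, k.1.2} : Finset _), (1 : ZMod 2) := by
      rw [← sum_filter]
      refine sum_congr ?_ fun _ _ => rfl
      ext i
      simp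
    rw [h1, sum_insert, sum_singleton]
    · decide
    · rw [mem_singleton]
      exact hk12
  obtain ⟨y, hy1, hy2⟩ : ∃ y : (Option T → c.V) × (Option T → c.V),
      (∀ o, y.1 o = if o = some p then ⟨_, hδ⟩ else 0) ∧ (∀ o, y.2 o = ⟨_, hψ o⟩) :=
    ⟨(fun o => if o = some p then ⟨_, hδ⟩ else 0, fun o => ⟨_, hψ o⟩), fun _ => rfl, fun _ => rfl⟩
  have hy1p : ∀ i, (y.1 (some p)).1 i = if i = k.1.1 ∨ i = k.1.2 then 1 else 0 := by
    intro i
    rw [hy1, if_pos rfl]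
  have hy10 : ∀ o, o ≠ some p → y.1 o = 0 := fun o ho => by rw [hy1, if_neg ho]
  have hUo : ∀ i, Uo (fun o => (y.1 o).1 i) = if i = k.1.1 ∨ i = k.1.2 then (((p : ℕ) : ℤ)) else 1 := by
    intro i
    unfold Uo
    rw [prod_eq_single (some p)]
    · show (if (y.1 (some p)).1 i = 0 then (1 : ℤ) else tv (some p)) = _
      rw [hy1p]
      by_cases h : i = k.1.1 ∨ i = k.1.2
      · rw [if_pos h, if_neg one_ne_zero, if_pos h]
        rfl
      · rw [if_neg h, if_pos rfl, if_neg h]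
    · intro o _ ho
      show (if (y.1 o).1 i = 0 then (1 : ℤ) else tv o) = 1
      rw [hy10 o ho, if_pos]
      rfl
    · intro h
      exact absurd (mem_univ _) h
  have hlc : ∀ (K : Type) [Field K], (∀ i, IsSquare ((c.dz y.1 z i : ℤ) : K)) →
      ∀ ρ, c.Lc K ρ y := by
    intro K _ hK ρ
    obtain ⟨n, hn1, -, hn3, hn4⟩ := hA4 ρ 0
    refine ⟨n, z, ?_, hn4, fun i => ⟨hzc i, ?_⟩, locJ_of_sq _ _ hK⟩
    · intro q hq h
      have h1 := (Nat.prime_dvd_prime_iff_eq (hT q hq) hn1).1 h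
      rw [← h1] at hn3
      exact hn3 hq
    · funext o
      rw [hy2 o]
  refine ⟨y, ?_, ?_, ?_, hy1p, ?_⟩
  · refine hlc ℝ fun i => ?_
    rw [Real.isSquare_iff]
    have h1 : 0 ≤ c.dz y.1 z i := by
      unfold Cr.dz
      rw [hUo]
      split_ifs <;> positivity
    exact_mod_cast h1
  · intro q hq hqp ρ _
    have hqT' : q ∈ T' := by
      rw [hT']
      exact mem_erase.2 ⟨hqp, hq⟩
    refine hlc ℚ_[q] (fun i => ?_) ρ
    unfold Cr.dz
    rw [hUo]
    by_cases h1 : i = k.1.1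
    · rw [h1, hz1, if_pos (Or.inl rfl)]
      push_cast
      exact hsq q hqT'
    by_cases h2 : i = k.1.2
    · rw [h2, hz2, if_pos (Or.inr rfl)]
      push_cast
      rw [← mul_assoc]
      exact (hsq q hqT').mul (hsq' q hqT')
    rw [if_neg (by tauto)]
    by_cases h3 : i = l
    · rw [h3, hz3]
      push_cast
      rw [one_mul]
      exact hsq' q hqT'
    · rw [hz4 i h1 h2 h3]
      push_cast
      exact IsSquare.one
  · intro q hq
    exact hy10 _ fun h => hq (Option.some_injective _ h)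
  · have hun : ∀ i, c.un p y i = rc p (lbl T (z i)) := by
      intro i
      unfold Cr.un
      rw [sum_eq_zero, zero_add]
      · congr 1
        funext o
        rw [hy2 o]
      · intro o ho
        rw [hy10 o (mem_erase.1 ho).1]
        show _ * (0 : ZMod 2) = 0
        rw [mul_zero]
    have h8 : m' % 8 = 1 := by
      have h1 : m' ≡ 1 [MOD 8] := Nat.ModEq.of_dvd (by rw [hM]; exact Dvd.intro _ rfl) hm'1
      exact h1
    rw [hun, hun, hz1, hz2, hlab, rc_add, ← add_assoc, CharTwo.add_self_eq_zero, zero_add,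
      rc_lbl p hp hp2 (by omega) (by rw [hm'r]; exact hr0), hm'r]
    exact hrσ

end Q154.JQ
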